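import Pool.Agent.Work.MP_2f1fa1_lc.Mt.Main
import Pool.Agent.Work.MP_2f1fa1_lc.Mt.PTenc

/-!
# The maximum scatter travelling salesman problem in the Euclidean plane is NP-hard

The decision problem of the maximum scatter TSP for points with integer coordinates: given a list
of at least three distinct points and a number `D`, is there a tour all whose edges have squared
Euclidean length at least `D`?  We prove that every language in NP reduces to it by a polynomial
time many-one reduction, computed by one of Mathlib's machines (`TM2ComputableInPolyTime`), and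
moreover that the coordinates and the threshold produced by the reduction are bounded by a
polynomial in the length of the input (strong NP-hardness).
-/

open Turing

namespace Pool.Agent.Results.MP_2f1fa1_lc.PlanarNPHard

/-- squared Euclidean distance of two points with integer coordinates -/
def sqDist (p q : ℤ × ℤ) : ℤ := (p.1 - q.1) ^ 2 + (p.2 - q.2) ^ 2

/-- `l` lists the points of a tour in cyclic order; all edges (also the one from the last point
to the first one) have squared length at least `D` -/
def TourAtLeast (D : ℕ) (l : List (ℤ × ℤ)) : Prop :=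
  ∀ (i : ℕ) (h : i < l.length), (D : ℤ) ≤ sqDist l[i] (l[(i + 1) % l.length]'(Nat.mod_lt _
    (Nat.zero_lt_of_lt h)))

/-- yes-instances `(P, D)`: `P` is a list of at least three distinct points, and some ordering of
`P` is a tour with all squared edge lengths at least `D` -/
def Yes (I : List (ℤ × ℤ) × ℕ) : Prop :=
  I.1.Nodup ∧ 3 ≤ I.1.length ∧ ∃ l : List (ℤ × ℤ), l.Perm I.1 ∧ TourAtLeast I.2 l

/-- a natural number in binary (least significant digit first): every digit is preceded by
`true`, the end is marked by `false` -/
def encNat (n : ℕ) : List Bool := n.bits.flatMap (fun b => [true, b]) ++ [false]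

/-- an integer: the sign, then the absolute value in binary -/
def encInt (z : ℤ) : List Bool := decide (z < 0) :: encNat z.natAbs

/-- a list of points: every point is preceded by `true`, the end is marked by `false` -/
def encPts (P : List (ℤ × ℤ)) : List Bool :=
  P.flatMap (fun p => true :: (encInt p.1 ++ encInt p.2)) ++ [false]

/-- the encoding of an instance as a string of bits -/
def encInst (I : List (ℤ × ℤ) × ℕ) : List Bool := encPts I.1 ++ encNat I.2

/-- the string `y#x` over the alphabet `0, 1, #`, for the pair `(x, y)` -/
def pairEnc (z : List Bool × List Bool) : List (Option Bool) :=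
  z.2.map some ++ none :: z.1.map some

/-- languages in NP: there are a verifier `V`, computed in polynomial time by one of Mathlib's
machines from the string `y#x`, and a polynomial `p` bounding the length of the certificates -/
def InNP (L : Set (List Bool)) : Prop :=
  ∃ (V : List Bool × List Bool → Bool) (p : Polynomial ℕ),
    Nonempty (TM2ComputableInPolyTime pairEnc (fun b : Bool => [b]) V) ∧
    ∀ x : List Bool, x ∈ L ↔ ∃ y : List Bool, y.length ≤ p.eval x.length ∧ V (x, y) = true

/-- The decision version of the maximum scatter TSP in the Euclidean plane is (strongly)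
NP-hard. -/
theorem result : ∀ L : Set (List Bool), InNP L → ∃ f : List Bool → List (ℤ × ℤ) × ℕ,
    Nonempty (TM2ComputableInPolyTime (fun x : List Bool => x) encInst f) ∧
    (∀ x, x ∈ L ↔ Yes (f x)) ∧
    (∀ x, (f x).1.Nodup ∧ 3 ≤ (f x).1.length) ∧
    ∃ q : Polynomial ℕ, ∀ x, (f x).2 ≤ q.eval x.length ∧
      ∀ p ∈ (f x).1, |p.1| ≤ q.eval x.length ∧ |p.2| ≤ q.eval x.length := by
  intro L hL
  obtain ⟨g, hg, hgL⟩ := PTime.cookLevin (L := L) hL
  obtain ⟨q, hq⟩ := MST.red_bound hg
  refine ⟨fun x => MST.redN (g x), MST.redN_machine hg, fun x => ?_, fun x => ?_, q,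
    fun x => ?_⟩
  · rw [hgL x, MST.red_iff]
    have h1 : (((MST.redN (g x)).2 : ℕ) : ℤ) = (MST.red (g x)).2 :=
      Int.toNat_of_nonneg (MST.red_nonneg (g x))
    unfold Yes TourAtLeast MST.ScatterYes MST.IsTour
    rw [h1]
    rfl
  · refine ⟨MST.points_nodup (MST.opsOf_wf (g x)), ?_⟩
    show 3 ≤ (MST.points _ _).length
    rw [MST.geo3_length]
    exact MST.opsOf_length (g x)
  · obtain ⟨h1, h2⟩ := hq x
    refine ⟨h2, fun p hp => ?_⟩
    obtain ⟨h3, h4⟩ := h1 p hp
    rw [Int.abs_eq_natAbs, Int.abs_eq_natAbs]
    exact ⟨by exact_mod_cast h3, by exact_mod_cast h4⟩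

end Pool.Agent.Results.MP_2f1fa1_lc.PlanarNPHard
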